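import Pool.Agent.H66.Spec3
import Pool.Agent.H66.Spec6

namespace Pool.Agent.Results.MP_f0e28a_gt.Literal

open Pool.Agent.H66.Spec

theorem result :
    ∀ I : Finset ℕ, I.Nonempty →
      ∃ (n : ℕ) (S : Set (EuclideanSpace ℝ (Fin n))), IsSpectrahedron S ∧ signature S = ↑I ∧
        FaciallyExposed S ∧ FaciallyExposed (polar S) :=
  realise

end Pool.Agent.Results.MP_f0e28a_gt.Literal
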