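import Pool.Agent.H66.Spec3
import Pool.Agent.H66.Spec6

namespace Pool.Agent.Results.MP_f0e28a_gt.OriginNo

open Pool.Agent.H66.Spec

theorem result :
    ∀ (n : ℕ) (S : Set (EuclideanSpace ℝ (Fin n))),
      (IsSpectrahedron S ∨ (IsClosed S ∧ Convex ℝ S)) → 0 ∈ S → signature S = {0, 2, 3} →
        ¬ (FaciallyExposed S ∧ FaciallyExposed (polar S)) := by
  intro n S hS h0 hsig h
  have hS' : IsClosed S ∧ Convex ℝ S := hS.elim (fun h => h.closed_convex) id
  exact obstruction hS'.1 hS'.2 h0 hsig h.1 h.2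

end Pool.Agent.Results.MP_f0e28a_gt.OriginNo
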